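import Pool.Agent.Helper41_SA.State

/-!
# Boxes: integer interval arithmetic for complex numbers
-/

set_option autoImplicit false

namespace SA.H41

open SA

/-! ## real intervals -/

/-- `x ∈ [I.1, I.2] / p` -/
def MI (p : ℕ) (I : ℤ × ℤ) (x : ℝ) : Prop := (I.1 : ℝ) ≤ p * x ∧ p * x ≤ I.2

def iadd (a b : ℤ × ℤ) : ℤ × ℤ := (a.1 + b.1, a.2 + b.2)
def isub (a b : ℤ × ℤ) : ℤ × ℤ := (a.1 - b.2, a.2 - b.1)
def imul (p : ℕ) (a b : ℤ × ℤ) : ℤ × ℤ :=
  (min (min (a.1 * b.1) (a.1 * b.2)) (min (a.2 * b.1) (a.2 * b.2)) / p,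
   max (max (a.1 * b.1) (a.1 * b.2)) (max (a.2 * b.1) (a.2 * b.2)) / p + 1)
def iinv (p : ℕ) (a : ℤ × ℤ) : ℤ × ℤ := ((p * p : ℤ) / a.2, (p * p : ℤ) / a.1 + 1)

theorem MI.add {p : ℕ} {a b : ℤ × ℤ} {x y : ℝ} (hx : MI p a x) (hy : MI p b y) :
    MI p (iadd a b) (x + y) := by
  unfold MI iadd at *
  push_cast
  rw [mul_add]
  constructor <;> linarith [hx.1, hx.2, hy.1, hy.2]

theorem MI.sub {p : ℕ} {a b : ℤ × ℤ} {x y : ℝ} (hx : MI p a x) (hy : MI p b y) :
    MI p (isub a b) (x - y) := by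
  unfold MI isub at *
  push_cast
  rw [mul_sub]
  constructor <;> linarith [hx.1, hx.2, hy.1, hy.2]

theorem cmul_bd {c y u v : ℝ} (h1 : u ≤ y) (h2 : y ≤ v) :
    min (c * u) (c * v) ≤ c * y ∧ c * y ≤ max (c * u) (c * v) := by
  rcases le_total 0 c with hc | hc
  · exact ⟨(min_le_left _ _).trans (mul_le_mul_of_nonneg_left h1 hc),
      (mul_le_mul_of_nonneg_left h2 hc).trans (le_max_right _ _)⟩
  · exact ⟨(min_le_right _ _).trans (mul_le_mul_of_nonpos_left h2 hc),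
      (mul_le_mul_of_nonpos_left h1 hc).trans (le_max_left _ _)⟩

theorem mul_bd {x y a b u v : ℝ} (h1 : a ≤ x) (h2 : x ≤ b) (h3 : u ≤ y) (h4 : y ≤ v) :
    min (min (a * u) (a * v)) (min (b * u) (b * v)) ≤ x * y ∧
    x * y ≤ max (max (a * u) (a * v)) (max (b * u) (b * v)) := by
  obtain ⟨p1, p2⟩ := cmul_bd (c := a) h3 h4
  obtain ⟨q1, q2⟩ := cmul_bd (c := b) h3 h4
  obtain ⟨r1, r2⟩ := cmul_bd (c := y) h1 h2
  rw [mul_comm y x, mul_comm y a, mul_comm y b] at r1 r2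
  constructor
  · refine le_trans ?_ r1
    exact le_min ((min_le_left _ _).trans p1) ((min_le_right _ _).trans q1)
  · refine r2.trans ?_
    exact max_le (p2.trans (le_max_left _ _)) (q2.trans (le_max_right _ _))

theorem ediv_le {p : ℤ} (hp : 0 < p) (m : ℤ) : (((m / p : ℤ)) : ℝ) * p ≤ m := by
  have h := Int.ediv_mul_le m hp.ne'
  exact_mod_cast h

theorem lt_ediv {p : ℤ} (hp : 0 < p) (m : ℤ) : (m : ℝ) ≤ (((m / p + 1 : ℤ)) : ℝ) * p := by
  have h := Int.lt_ediv_add_one_mul_self m hp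
  have h' : m ≤ (m / p + 1) * p := h.le
  exact_mod_cast h'

theorem MI.mul {p : ℕ} (hp : 0 < p) {a b : ℤ × ℤ} {x y : ℝ} (hx : MI p a x) (hy : MI p b y) :
    MI p (imul p a b) (x * y) := by
  have hp' : (0 : ℝ) < p := by exact_mod_cast hp
  have hpz : (0 : ℤ) < (p : ℤ) := by exact_mod_cast hp
  obtain ⟨h1, h2⟩ := mul_bd hx.1 hx.2 hy.1 hy.2
  have e : (p : ℝ) * x * (p * y) = p * (x * y) * p := by ring
  rw [e] at h1 h2
  constructor
  · have h3 := ediv_le hpz (min (min (a.1 * b.1) (a.1 * b.2)) (min (a.2 * b.1) (a.2 * b.2)))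
    push_cast at h3
    have h4 : (((imul p a b).1 : ℤ) : ℝ) * p ≤ p * (x * y) * p := by
      refine le_trans ?_ h1
      simp only [imul]
      exact_mod_cast h3
    exact le_of_mul_le_mul_right h4 hp'
  · have h3 := lt_ediv hpz (max (max (a.1 * b.1) (a.1 * b.2)) (max (a.2 * b.1) (a.2 * b.2)))
    push_cast at h3
    have h4 : p * (x * y) * p ≤ (((imul p a b).2 : ℤ) : ℝ) * p := by
      refine h2.trans ?_
      simp only [imul]
      push_cast
      exact h3
    exact le_of_mul_le_mul_right h4 hp'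

theorem MI.inv {p : ℕ} (hp : 0 < p) {a : ℤ × ℤ} {x : ℝ} (ha : 0 < a.1) (hx : MI p a x) :
    MI p (iinv p a) x⁻¹ ∧ 0 < x := by
  have hp' : (0 : ℝ) < p := by exact_mod_cast hp
  have ha' : (0 : ℝ) < a.1 := by exact_mod_cast ha
  have hx0 : 0 < x := by
    have : 0 < (p : ℝ) * x := lt_of_lt_of_le ha' hx.1
    exact (mul_pos_iff_of_pos_left hp').mp this
  have ha2 : (0 : ℤ) < a.2 := by
    have : (0 : ℝ) < a.2 := lt_of_lt_of_le (lt_of_lt_of_le ha' hx.1) hx.2
    exact_mod_cast this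
  have ha2' : (0 : ℝ) < a.2 := by exact_mod_cast ha2
  have e : (p : ℝ) * x⁻¹ * (p * x) = p * p := by field_simp
  have hpos : 0 < (p : ℝ) * x⁻¹ := mul_pos hp' (inv_pos.mpr hx0)
  refine ⟨⟨?_, ?_⟩, hx0⟩
  · have h3 := ediv_le ha2 (p * p : ℤ)
    push_cast at h3
    have h4 : (((iinv p a).1 : ℤ) : ℝ) * a.2 ≤ (p : ℝ) * x⁻¹ * a.2 := by
      calc (((iinv p a).1 : ℤ) : ℝ) * a.2 ≤ (p : ℝ) * p := by
            simp only [iinv]; exact_mod_cast h3
        _ = (p : ℝ) * x⁻¹ * (p * x) := e.symm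
        _ ≤ _ := mul_le_mul_of_nonneg_left hx.2 hpos.le
    exact le_of_mul_le_mul_right h4 ha2'
  · have h3 := lt_ediv ha (p * p : ℤ)
    push_cast at h3
    have h4 : (p : ℝ) * x⁻¹ * a.1 ≤ (((iinv p a).2 : ℤ) : ℝ) * a.1 := by
      calc (p : ℝ) * x⁻¹ * a.1 ≤ (p : ℝ) * x⁻¹ * (p * x) :=
            mul_le_mul_of_nonneg_left hx.1 hpos.le
        _ = p * p := e
        _ ≤ _ := by simp only [iinv]; push_cast; exact h3
    exact le_of_mul_le_mul_right h4 ha'

/-! ## boxes -/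

/-- a box: enclosures of real and imaginary part -/
structure Bx where
  re : ℤ × ℤ
  im : ℤ × ℤ

def MB (p : ℕ) (b : Bx) (z : ℂ) : Prop := MI p b.re z.re ∧ MI p b.im z.im

def badd (a b : Bx) : Bx := ⟨iadd a.re b.re, iadd a.im b.im⟩
def bsub (a b : Bx) : Bx := ⟨isub a.re b.re, isub a.im b.im⟩
def bmul (p : ℕ) (a b : Bx) : Bx :=
  ⟨isub (imul p a.re b.re) (imul p a.im b.im), iadd (imul p a.re b.im) (imul p a.im b.re)⟩
def bnsq (p : ℕ) (a : Bx) : ℤ × ℤ := iadd (imul p a.re a.re) (imul p a.im a.im)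
def binv (p : ℕ) (a : Bx) : Bx :=
  ⟨imul p a.re (iinv p (bnsq p a)), imul p (isub (0, 0) a.im) (iinv p (bnsq p a))⟩
/-- real intervals as boxes -/
def bre (a : ℤ × ℤ) : Bx := ⟨a, (0, 0)⟩

theorem MB.add {p : ℕ} {a b : Bx} {x y : ℂ} (hx : MB p a x) (hy : MB p b y) :
    MB p (badd a b) (x + y) := ⟨hx.1.add hy.1, hx.2.add hy.2⟩

theorem MB.sub {p : ℕ} {a b : Bx} {x y : ℂ} (hx : MB p a x) (hy : MB p b y) :
    MB p (bsub a b) (x - y) := ⟨hx.1.sub hy.1, hx.2.sub hy.2⟩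

theorem MB.mul {p : ℕ} (hp : 0 < p) {a b : Bx} {x y : ℂ} (hx : MB p a x) (hy : MB p b y) :
    MB p (bmul p a b) (x * y) := by
  constructor
  · rw [Complex.mul_re]
    exact (hx.1.mul hp hy.1).sub (hx.2.mul hp hy.2)
  · rw [Complex.mul_im]
    exact (hx.1.mul hp hy.2).add (hx.2.mul hp hy.1)

theorem MI.zero {p : ℕ} : MI p (0, 0) 0 := by simp [MI]

theorem MB.inv {p : ℕ} (hp : 0 < p) {a : Bx} {x : ℂ} (hx : MB p a x)
    (ha : 0 < (bnsq p a).1) : MB p (binv p a) x⁻¹ ∧ x ≠ 0 := by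
  have hn : MI p (bnsq p a) (Complex.normSq x) := by
    rw [Complex.normSq_apply]
    exact (hx.1.mul hp hx.1).add (hx.2.mul hp hx.2)
  obtain ⟨hi, h0⟩ := hn.inv hp ha
  have hx0 : x ≠ 0 := Complex.normSq_pos.mp h0
  refine ⟨⟨?_, ?_⟩, hx0⟩
  · rw [Complex.inv_re, div_eq_mul_inv]
    exact hx.1.mul hp hi
  · rw [Complex.inv_im, div_eq_mul_inv]
    have e : -x.im = 0 - x.im := by ring
    rw [e]
    exact (MI.zero.sub hx.2).mul hp hi

theorem MB.ofReal {p : ℕ} {a : ℤ × ℤ} {x : ℝ} (hx : MI p a x) : MB p (bre a) (x : ℂ) := by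
  refine ⟨?_, ?_⟩
  · rw [Complex.ofReal_re]; exact hx
  · rw [Complex.ofReal_im]; exact MI.zero

/-- forces an integer -/
def frcI {α : Type} (n : ℤ) (k : ℤ → α) : α :=
  match n with
  | Int.ofNat m => frc m fun m' => k (Int.ofNat m')
  | Int.negSucc m => frc m fun m' => k (Int.negSucc m')

theorem frcI_eq {α : Type} (n : ℤ) (k : ℤ → α) : frcI n k = k n := by
  cases n <;> simp only [frcI, frc_eq]

/-- forces a box -/
def frB {α : Type} (b : Bx) (k : Bx → α) : α :=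
  frcI b.re.1 fun x => frcI b.re.2 fun y => frcI b.im.1 fun z => frcI b.im.2 fun w =>
    k ⟨(x, y), (z, w)⟩

theorem frB_eq {α : Type} (b : Bx) (k : Bx → α) : frB b k = k b := by
  simp only [frB, frcI_eq]

/-! ## powers -/

/-- value of a list of binary digits, starting with `m` -/
def bval' : List Bool → ℕ → ℕ
  | [], m => m
  | true :: t, m => bval' t (2 * m + 1)
  | false :: t, m => bval' t (2 * m)

def pw (p : ℕ) (x : Bx) (k : Bx → Bool) : List Bool → Bx → Bool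
  | [], y => k y
  | true :: t, y => frB (bmul p y y) fun y2 => frB (bmul p y2 x) fun y' => pw p x k t y'
  | false :: t, y => frB (bmul p y y) fun y' => pw p x k t y'

theorem pw_sound {p : ℕ} (hp : 0 < p) {x : Bx} {z : ℂ} (hx : MB p x z) (k : Bx → Bool)
    (l : List Bool) : ∀ (m : ℕ) (y : Bx), MB p y (z ^ m) → pw p x k l y = true →
      ∃ b, MB p b (z ^ (bval' l m)) ∧ k b = true := by
  induction l with
  | nil => intro m y hy h; exact ⟨y, hy, h⟩
  | cons a t ih =>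
    intro m y hy h
    cases a with
    | true =>
      simp only [pw, frB_eq] at h
      have e : z ^ (2 * m + 1) = z ^ m * z ^ m * z := by ring
      exact ih (2 * m + 1) _ (by rw [e]; exact (hy.mul hp hy).mul hp hx) h
    | false =>
      simp only [pw, frB_eq] at h
      have e : z ^ (2 * m) = z ^ m * z ^ m := by ring
      exact ih (2 * m) _ (by rw [e]; exact hy.mul hp hy) h

/-! ## the sum with the characteristic sequence -/

def loop (p : ℕ) (Tb Kb xb : Bx) (k : Bx → Bool) :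
    List (ℕ × ℕ) → ℕ × ℕ → ℕ → Bx → Bx → Bool
  | [], _, _, _, acc => k acc
  | a :: t, prev, r, g, acc =>
    frB (badd (bsub Kb (bmul p (bre ((p * (r + 1) : ℤ), (p * (r + 1) : ℤ))) Tb)) (bmul p xb g)) fun g' =>
    frB (badd acc (bmul p (bre ((a.1 : ℤ) - prev.2, (a.2 : ℤ) - prev.1)) g')) fun acc' =>
    frc (r + 1) fun r' =>
    loop p Tb Kb xb k t a r' g' acc'

theorem loop_sound {p : ℕ} (hp : 0 < p) {Tb Kb xb : Bx} {T x : ℂ} (hT : MB p Tb T)
    (hK : MB p Kb (x / (x - 1) ^ 2)) (hx : MB p xb x) (k : Bx → Bool) (v : ℕ → ℝ)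
    (l : List (ℕ × ℕ)) : ∀ (prev : ℕ × ℕ) (r : ℕ) (g acc : Bx) (S : ℂ),
      Enc p prev (v r) → (∀ j, j < l.length → Enc p (l.getD j (0, 0)) (v (r + 1 + j))) →
      MB p g (gam T x r) → MB p acc S → loop p Tb Kb xb k l prev r g acc = true →
      ∃ b, MB p b (S + ∑ i ∈ Finset.range l.length,
        ((v (r + 1 + i) - v (r + i) : ℝ) : ℂ) * gam T x (r + 1 + i)) ∧ k b = true := by
  induction l with
  | nil =>
    intro prev r g acc S _ _ _ hacc h
    exact ⟨acc, by simpa using hacc, h⟩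
  | cons a t ih =>
    intro prev r g acc S hprev hl hg hacc h
    simp only [loop, frB_eq, frc_eq] at h
    have ha : Enc p a (v (r + 1)) := by
      have := hl 0 (by simp)
      simpa using this
    have hr : MB p (bre ((p * (r + 1) : ℤ), (p * (r + 1) : ℤ))) (((r : ℝ) + 1 : ℝ) : ℂ) := by
      apply MB.ofReal
      constructor
      · push_cast; exact le_refl _
      · push_cast; exact le_refl _
    have hg' : MB p (badd (bsub Kb (bmul p (bre ((p * (r + 1) : ℤ), (p * (r + 1) : ℤ))) Tb))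
        (bmul p xb g)) (gam T x (r + 1)) := by
      have e : gam T x (r + 1) = x / (x - 1) ^ 2 - (((r : ℝ) + 1 : ℝ) : ℂ) * T + x * gam T x r := by
        rw [gam]; push_cast; ring
      rw [e]
      exact (hK.sub (hr.mul hp hT)).add (hx.mul hp hg)
    have hd : MB p (bre ((a.1 : ℤ) - prev.2, (a.2 : ℤ) - prev.1)) ((v (r + 1) - v r : ℝ) : ℂ) := by
      apply MB.ofReal
      unfold Enc at ha hprev
      unfold MI
      push_cast
      rw [mul_sub]
      constructor <;> linarith [ha.1, ha.2, hprev.1, hprev.2]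
    obtain ⟨b, hb, hkb⟩ := ih a (r + 1) _ _ (S + ((v (r + 1) - v r : ℝ) : ℂ) * gam T x (r + 1)) ha
      (fun j hj => by
        have := hl (j + 1) (by simpa using hj)
        rw [List.getD_cons_succ] at this
        have e : r + 1 + (j + 1) = r + 1 + 1 + j := by ring
        rw [e] at this
        exact this)
      hg' (hacc.add (hd.mul hp hg')) h
    refine ⟨b, ?_, hkb⟩
    have es : S + ∑ i ∈ Finset.range (a :: t).length,
          ((v (r + 1 + i) - v (r + i) : ℝ) : ℂ) * gam T x (r + 1 + i)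
        = S + ((v (r + 1) - v r : ℝ) : ℂ) * gam T x (r + 1) + ∑ i ∈ Finset.range t.length,
          ((v (r + 1 + 1 + i) - v (r + 1 + i) : ℝ) : ℂ) * gam T x (r + 1 + 1 + i) := by
      rw [List.length_cons, Finset.sum_range_succ']
      have e0 : ∑ i ∈ Finset.range t.length,
            ((v (r + 1 + (i + 1)) - v (r + (i + 1)) : ℝ) : ℂ) * gam T x (r + 1 + (i + 1))
          = ∑ i ∈ Finset.range t.length,
            ((v (r + 1 + 1 + i) - v (r + 1 + i) : ℝ) : ℂ) * gam T x (r + 1 + 1 + i) := by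
        apply Finset.sum_congr rfl
        intro i _
        have e1 : r + 1 + (i + 1) = r + 1 + 1 + i := by ring
        have e2 : r + (i + 1) = r + 1 + i := by ring
        rw [e1, e2]
      rw [e0]
      simp only [Nat.add_zero]
      ring
    rw [es]
    exact hb

end SA.H41
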