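import Pool.Agent.Helper41_SA.Bx

/-!
# Enclosures of the modes
-/

set_option autoImplicit false

namespace SA.H41

open SA

def one' (p : ℕ) : Bx := bre ((p : ℤ), (p : ℤ))

theorem MB.one {p : ℕ} : MB p (one' p) 1 := by
  have : MB p (one' p) ((1 : ℝ) : ℂ) := MB.ofReal (by simp [MI])
  simpa using this

theorem gam_ofReal (T x : ℝ) (r : ℕ) : gam (T : ℂ) (x : ℂ) r = ((gam T x r : ℝ) : ℂ) := by
  induction r with
  | zero => simp [gam]
  | succ r ih => simp only [gam]; rw [ih]; push_cast; ring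

theorem PhiC_ofReal (T x : ℝ) (n : ℕ) : PhiC T (x : ℂ) n = ((PhiR T x n : ℝ) : ℂ) := by
  unfold PhiC PhiR
  simp only [gam_ofReal]
  push_cast
  ring

/-- enclosure of `PhiC` from an enclosure of the state -/
def phi (p : ℕ) (Tb xb : Bx) (q : List (ℕ × ℕ)) (e1 e2 : ℕ) (k : Bx → Bool) : Bool :=
  frB (bsub xb (one' p)) fun xm =>
  frB (binv p xm) fun iv =>
  frB (bmul p iv iv) fun iv2 =>
  frB (bmul p xb iv2) fun Kb =>
  decide (0 < (bnsq p xm).1) &&
  match q.reverse with
  | [] => false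
  | a :: t =>
    loop p Tb Kb xb (fun s =>
      frB (bre ((56 * p : ℤ) - s2 q, (56 * p : ℤ) - s1 q)) fun Rb =>
      frB (badd Rb (bmul p Tb (bre ((e1 : ℤ), (e2 : ℤ))))) fun RT =>
      frB (bsub (bsub s (bmul p RT iv)) (bmul p Rb iv2)) k) t a 0 (bre (0, 0)) (bre (0, 0))

theorem sum_refl {M : Type} [AddCommMonoid M] (f : ℕ → M) :
    ∑ d ∈ Finset.Icc 1 55, f d = ∑ i ∈ Finset.range 55, f (55 - i) := by
  have e : Finset.Icc 1 55 = Finset.Ico 1 56 := rfl
  rw [e, Finset.sum_Ico_eq_sum_range]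
  have := Finset.sum_range_reflect (fun i => f (1 + i)) 55
  rw [← this]
  apply Finset.sum_congr rfl
  intro i hi
  rw [Finset.mem_range] at hi
  congr 1
  omega

theorem encR {p : ℕ} {T : ℝ} {n : ℕ} {q : List (ℕ × ℕ)} {e1 e2 : ℕ}
    (h : EncS p T n q e1 e2) :
    MI p ((56 * p : ℤ) - s2 q, (56 * p : ℤ) - s1 q) (gr T n).R := by
  have := enc_sum p q (fun j => (gr T n).Q j) (fun j hj => h.Q j (by rw [h.len] at hj; exact hj))
  rw [h.len] at this
  unfold Enc at this
  unfold MI St.R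
  push_cast
  rw [mul_sub]
  constructor <;> linarith [this.1, this.2]

theorem phi_sound {p : ℕ} (hp : 0 < p) {T : ℝ} {x : ℂ} {n : ℕ} {q : List (ℕ × ℕ)} {e1 e2 : ℕ}
    {Tb xb : Bx} (h : EncS p T n q e1 e2) (hT : MB p Tb (T : ℂ)) (hx : MB p xb x)
    (k : Bx → Bool) (hk : phi p Tb xb q e1 e2 k = true) :
    ∃ b, MB p b (PhiC T x n) ∧ k b = true := by
  simp only [phi, frB_eq, Bool.and_eq_true, decide_eq_true_eq] at hk
  obtain ⟨hn, hk⟩ := hk
  have hxm : MB p (bsub xb (one' p)) (x - 1) := hx.sub MB.one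
  obtain ⟨hiv, hx0⟩ := hxm.inv hp hn
  have hiv2 := hiv.mul hp hiv
  have hKb : MB p (bmul p xb (bmul p (binv p (bsub xb (one' p))) (binv p (bsub xb (one' p)))))
      (x / (x - 1) ^ 2) := by
    have e : x / (x - 1) ^ 2 = x * ((x - 1)⁻¹ * (x - 1)⁻¹) := by field_simp
    rw [e]
    exact hx.mul hp hiv2
  have hRb := MB.ofReal (encR h)
  have hEb : MB p (bre ((e1 : ℤ), (e2 : ℤ))) (((gr T n).E : ℝ) : ℂ) := by
    apply MB.ofReal
    have := h.E
    unfold Enc at this
    unfold MI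
    push_cast
    exact this
  have hrl : q.reverse.length = 56 := by rw [List.length_reverse, h.len]
  have hrev : ∀ j, j < 56 → q.reverse.getD j (0, 0) = q.getD (55 - j) (0, 0) := by
    intro j hj
    simp only [List.getD_eq_getElem?_getD]
    rw [List.getElem?_reverse (by rw [h.len]; exact hj), h.len]
  cases hq : q.reverse with
  | nil => rw [hq] at hrl; simp at hrl
  | cons a t =>
    rw [hq] at hk hrl
    simp only [List.length_cons] at hrl
    have ht : t.length = 55 := by omega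
    simp only at hk
    have ha : Enc p a ((fun r => (gr T n).Q (55 - r)) 0) := by
      have h1 := hrev 0 (by norm_num)
      rw [hq, List.getD_cons_zero] at h1
      rw [h1]
      exact h.Q 55 (by norm_num)
    have htl : ∀ j, j < t.length → Enc p (t.getD j (0, 0)) ((fun r => (gr T n).Q (55 - r)) (0 + 1 + j)) := by
      intro j hj
      rw [ht] at hj
      have h1 := hrev (j + 1) (by omega)
      rw [hq, List.getD_cons_succ] at h1
      rw [h1]
      have e : 0 + 1 + j = j + 1 := by ring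
      simp only [e]
      exact h.Q (55 - (j + 1)) (by omega)
    have hg0 : MB p (bre (0, 0)) (gam (T : ℂ) x 0) := by
      have : MB p (bre (0, 0)) ((0 : ℝ) : ℂ) := MB.ofReal MI.zero
      simpa [gam] using this
    have hacc : MB p (bre (0, 0)) (0 : ℂ) := by
      have : MB p (bre (0, 0)) ((0 : ℝ) : ℂ) := MB.ofReal MI.zero
      simpa using this
    obtain ⟨s, hs, hks⟩ := loop_sound hp hT hKb hx _ (fun r => (gr T n).Q (55 - r)) t a 0 _ _ 0
      ha htl hg0 hacc hk
    refine ⟨_, ?_, hks⟩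
    have eS : PhiC T x n = 0 + ∑ i ∈ Finset.range t.length,
        (((fun r => (gr T n).Q (55 - r)) (0 + 1 + i) - (fun r => (gr T n).Q (55 - r)) (0 + i) : ℝ) : ℂ)
          * gam (T : ℂ) x (0 + 1 + i)
        - (((gr T n).R : ℂ) + (T : ℂ) * (((gr T n).E : ℝ) : ℂ)) * (x - 1)⁻¹
        - ((gr T n).R : ℂ) * ((x - 1)⁻¹ * (x - 1)⁻¹) := by
      unfold PhiC
      rw [sum_refl, ht, zero_add]
      have e1 : ∑ i ∈ Finset.range 55, ((Nd T n (55 - i) : ℝ) : ℂ) * gam (T : ℂ) x (56 - (55 - i))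
          = ∑ i ∈ Finset.range 55, (((fun r => (gr T n).Q (55 - r)) (0 + 1 + i)
            - (fun r => (gr T n).Q (55 - r)) (0 + i) : ℝ) : ℂ) * gam (T : ℂ) x (0 + 1 + i) := by
        apply Finset.sum_congr rfl
        intro i hi
        rw [Finset.mem_range] at hi
        have e2 : 56 - (55 - i) = 0 + 1 + i := by omega
        rw [e2]
        congr 2
        simp only [Nd]
        have e3 : 55 - i - 1 = 55 - (0 + 1 + i) := by omega
        have e4 : 0 + i = i := by ring
        rw [e3, e4]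
      rw [e1]
      push_cast
      field_simp
    rw [eS]
    exact (hs.sub ((hRb.add (hT.mul hp hEb)).mul hp hiv)).sub (hRb.mul hp hiv2)

/-! ## quiet scaling -/

theorem quietR (hpd : PdStmt) (hm : ModRStmt) {T x : ℝ} (hT : T ≠ 0) (hx0 : x ≠ 0) (hx1 : x ≠ 1)
    (hroot : gam T x 56 = 0) (hval : ∀ n, n < 1525 → Valid T n)
    (hq : ∀ n, 171 ≤ n → n < 1525 → kap T n = 0) (k : ℕ) (hk : k ≤ 1354) :
    x ^ k * PhiR T x (171 + k) = PhiR T x 171 := by
  induction k with
  | zero => simp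
  | succ k ih =>
    have ih' := ih (by omega)
    have h1 := hm T x (171 + k) hT hx0 hx1 hroot (fun m hmn => hval m (by omega))
    have h2 : ∑ d ∈ Finset.Icc (1 : ℕ) 55, pd T (171 + k) d * gam T x (56 - d) = 0 := by
      apply Finset.sum_eq_zero
      intro d hd
      rw [Finset.mem_Icc] at hd
      rw [(hpd T (171 + k) (fun m hmn => hval m (by omega))).2.1 d
        (by rw [hq (171 + k) (by omega) (by omega)]; omega) hd.2, zero_mul]
    rw [h2, mul_zero, add_zero] at h1
    have e : 171 + (k + 1) = 171 + k + 1 := by ring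
    rw [e, pow_succ, mul_assoc, h1, ih']

theorem quietC (hpd : PdStmt) (hm : ModCStmt) {T : ℝ} {x : ℂ} (hT : T ≠ 0) (hx0 : x ≠ 0)
    (hx1 : x ≠ 1) (hroot : gam (T : ℂ) x 56 = 0) (hval : ∀ n, n < 1525 → Valid T n)
    (hq : ∀ n, 171 ≤ n → n < 1525 → kap T n = 0) (k : ℕ) (hk : k ≤ 1354) :
    x ^ k * PhiC T x (171 + k) = PhiC T x 171 := by
  induction k with
  | zero => simp
  | succ k ih =>
    have ih' := ih (by omega)
    have h1 := hm T x (171 + k) hT hx0 hx1 hroot (fun m hmn => hval m (by omega))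
    have h2 : ∑ d ∈ Finset.Icc (1 : ℕ) 55, (pd T (171 + k) d : ℂ) * gam (T : ℂ) x (56 - d) = 0 := by
      apply Finset.sum_eq_zero
      intro d hd
      rw [Finset.mem_Icc] at hd
      rw [(hpd T (171 + k) (fun m hmn => hval m (by omega))).2.1 d
        (by rw [hq (171 + k) (by omega) (by omega)]; omega) hd.2, Complex.ofReal_zero, zero_mul]
    rw [h2, mul_zero, add_zero] at h1
    have e : 171 + (k + 1) = 171 + k + 1 := by ring
    rw [e, pow_succ, mul_assoc, h1, ih']

end SA.H41
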