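import Pool.Agent.Helper41_SA.Modes

/-!
# SIM: what the simulation gives
-/

set_option autoImplicit false
set_option maxRecDepth 100000

namespace SA.H41

open SA

/-- the scale -/
def pS : ℕ := 2 ^ 320

theorem pS_pos : 0 < pS := by unfold pS; positivity

/-- rational constants -/
def qc (p : ℕ) (n m : ℤ) : ℤ × ℤ := (n * p / m, n * p / m + 1)

theorem MI.qc {p : ℕ} {n m : ℤ} (hm : 0 < m) : MI p (qc p n m) ((n : ℝ) / m) := by
  have hm' : (0 : ℝ) < m := by exact_mod_cast hm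
  have e : (p : ℝ) * ((n : ℝ) / m) = n * p / m := by ring
  unfold MI SA.H41.qc
  rw [e]
  constructor
  · rw [le_div_iff₀ hm']
    have h := ediv_le hm (n * p)
    push_cast at h ⊢
    exact h
  · rw [div_le_iff₀ hm']
    have h := lt_ediv hm (n * p)
    push_cast at h ⊢
    exact h

/-- numbers within `1 / 10 ^ 58` of `N / 10 ^ 65` -/
def nr (p N : ℕ) : ℤ × ℤ :=
  (((N : ℤ) - 10 ^ 7) * p / 10 ^ 65, ((N : ℤ) + 10 ^ 7) * p / 10 ^ 65 + 1)

theorem MI.nr' {p : ℕ} {N K M : ℤ} (hM0 : 0 < M) {x : ℝ}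
    (hx : |x - (N : ℝ) / M| ≤ (K : ℝ) / M) :
    MI p ((N - K) * p / M, (N + K) * p / M + 1) x := by
  have hp' : (0 : ℝ) ≤ p := Nat.cast_nonneg _
  obtain ⟨h1, h2⟩ := abs_le.mp hx
  have k1 := ediv_le hM0 ((N - K) * p)
  have k2 := lt_ediv hM0 ((N + K) * p)
  have hM : (0 : ℝ) < M := by exact_mod_cast hM0
  constructor
  · have h3 : (((N - K) * p / M : ℤ) : ℝ) * M ≤ p * x * M := by
      refine k1.trans ?_
      push_cast
      have h4 : (N : ℝ) - K ≤ x * M := by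
        have h5 : (N : ℝ) / M - K / M ≤ x := by linarith
        have h6 : ((N : ℝ) / M - K / M) * M ≤ x * M := mul_le_mul_of_nonneg_right h5 hM.le
        rwa [sub_mul, div_mul_cancel₀ _ hM.ne', div_mul_cancel₀ _ hM.ne'] at h6
      calc ((N : ℝ) - K) * p ≤ (x * M) * p := mul_le_mul_of_nonneg_right h4 hp'
        _ = _ := by ring
    exact le_of_mul_le_mul_right h3 hM
  · have h3 : p * x * M ≤ (((N + K) * p / M + 1 : ℤ) : ℝ) * M := by
      refine le_trans ?_ k2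
      push_cast
      have h4 : x * M ≤ (N : ℝ) + K := by
        have h5 : x ≤ (N : ℝ) / M + K / M := by linarith
        have h6 : x * M ≤ ((N : ℝ) / M + K / M) * M := mul_le_mul_of_nonneg_right h5 hM.le
        rwa [add_mul, div_mul_cancel₀ _ hM.ne', div_mul_cancel₀ _ hM.ne'] at h6
      calc p * x * M = (x * M) * p := by ring
        _ ≤ _ := mul_le_mul_of_nonneg_right h4 hp'
    exact le_of_mul_le_mul_right h3 hM

theorem MI.nr {p : ℕ} {N : ℕ} {x : ℝ} (hx : |x - (N : ℝ) / 10 ^ 65| ≤ 1 / 10 ^ 58) :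
    MI p (nr p N) x := by
  apply MI.nr' (N := (N : ℤ)) (K := 10 ^ 7) (M := 10 ^ 65) (by positivity)
  have hx' := hx
  norm_num at hx' ⊢
  exact hx'

def TL : ℕ := Tm * 2 ^ 120
def TH : ℕ := (Tm + 1) * 2 ^ 120

theorem T_enc {T : ℝ} (h1 : Tlo ≤ T) (h2 : T ≤ Thi) :
    (TL : ℝ) ≤ pS * T ∧ pS * T ≤ TH := by
  have e : (pS : ℝ) = 2 ^ 200 * 2 ^ 120 := by unfold pS; push_cast; rw [← pow_add]
  have e1 : (TL : ℝ) = pS * Tlo := by
    rw [e]; unfold TL Tlo; push_cast; field_simp; norm_num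
  have e2 : (TH : ℝ) = pS * Thi := by
    rw [e]; unfold TH Thi; push_cast; field_simp; norm_num
  rw [e1, e2]
  have hp' : (0 : ℝ) ≤ pS := Nat.cast_nonneg _
  exact ⟨mul_le_mul_of_nonneg_left h1 hp', mul_le_mul_of_nonneg_left h2 hp'⟩

def TB : Bx := bre ((TL : ℤ), (TH : ℤ))
def XB : Bx := bre (nr pS x0N)
def ZB : Bx := bre (nr pS zN)
def HB : Bx := ⟨nr pS thReN, nr pS thImN⟩
def A0 : Bx := bre (qc pS (-175754569584033739501149782116523511003670119797620133861315522501856) (10 ^ 75))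
def AZ : Bx := bre (qc pS 334731190956066832408093705608781396818207947273109894094322362497122 (10 ^ 75))
def A2 : Bx := ⟨qc pS (-511579574387745688319579868186603685494508602186803848953416629586129) (10 ^ 75),
  qc pS (-2261672374297335794469637142286534089969706084861774953854247615017621) (10 ^ 75)⟩

theorem mA0 : MB pS A0 ((a0c : ℝ) : ℂ) := by
  apply MB.ofReal
  have := MI.qc (p := pS) (n := -175754569584033739501149782116523511003670119797620133861315522501856)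
    (m := 10 ^ 75) (by positivity)
  convert this using 1
  unfold a0c
  norm_num

theorem mAZ : MB pS AZ ((azc : ℝ) : ℂ) := by
  apply MB.ofReal
  have := MI.qc (p := pS) (n := 334731190956066832408093705608781396818207947273109894094322362497122)
    (m := 10 ^ 75) (by positivity)
  convert this using 1
  unfold azc
  norm_num

theorem mA2 : MB pS A2 a2c := by
  constructor
  · have := MI.qc (p := pS) (n := -511579574387745688319579868186603685494508602186803848953416629586129)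
      (m := 10 ^ 75) (by positivity)
    have e : a2c.re = ((-511579574387745688319579868186603685494508602186803848953416629586129 : ℤ) : ℝ)
        / ((10 ^ 75 : ℤ) : ℝ) := by
      simp only [a2c]; norm_num
    rw [e]; exact this
  · have := MI.qc (p := pS) (n := -2261672374297335794469637142286534089969706084861774953854247615017621)
      (m := 10 ^ 75) (by positivity)
    have e : a2c.im = ((-2261672374297335794469637142286534089969706084861774953854247615017621 : ℤ) : ℝ)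
        / ((10 ^ 75 : ℤ) : ℝ) := by
      simp only [a2c]; norm_num
    rw [e]; exact this

theorem mX {T x0 z : ℝ} {th : ℂ} (h : Roots T x0 z th) : MB pS XB (x0 : ℂ) :=
  MB.ofReal (MI.nr h.x0_enc)

theorem mZ {T x0 z : ℝ} {th : ℂ} (h : Roots T x0 z th) : MB pS ZB (z : ℂ) :=
  MB.ofReal (MI.nr h.z_enc)

theorem mH {T x0 z : ℝ} {th : ℂ} (h : Roots T x0 z th) : MB pS HB th := by
  have hn := h.th_enc
  refine ⟨MI.nr ?_, MI.nr ?_⟩
  · have := Complex.abs_re_le_norm (th - ⟨(thReN : ℝ) / 10 ^ 65, (thImN : ℝ) / 10 ^ 65⟩)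
    rw [Complex.sub_re] at this
    exact this.trans hn
  · have := Complex.abs_im_le_norm (th - ⟨(thReN : ℝ) / 10 ^ 65, (thImN : ℝ) / 10 ^ 65⟩)
    rw [Complex.sub_im] at this
    exact this.trans hn

theorem mT {T : ℝ} (h1 : Tlo ≤ T) (h2 : T ≤ Thi) : MB pS TB (T : ℂ) := by
  apply MB.ofReal
  obtain ⟨h3, h4⟩ := T_enc h1 h2
  unfold MI
  push_cast
  exact ⟨h3, h4⟩

/-- binary digits of 1354, without the leading one -/
def bits : List Bool := [false, true, false, true, false, false, true, false, true, false]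

theorem bits_val : bval' bits 1 = 1354 := by decide

/-- the test: returns true when all enclosures are as wanted -/
def tst (q : List (ℕ × ℕ)) (e1 e2 : ℕ) : Bool :=
  phi pS TB XB q e1 e2 fun F0 =>
  phi pS TB ZB q e1 e2 fun Fz =>
  phi pS TB HB q e1 e2 fun Ft =>
  frB (bmul pS A0 F0) fun C =>
  frB (binv pS C) fun Ci =>
  frB (binv pS HB) fun hi =>
  frB (binv pS ZB) fun zi =>
  frB (bmul pS XB hi) fun rh =>
  frB (bmul pS XB zi) fun rz =>
  frB (bmul pS (bmul pS A2 Ft) Ci) fun Y =>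
  frB (bmul pS (bmul pS AZ Fz) Ci) fun V =>
  decide (254 * (pS : ℤ) ≤ 10 ^ 7 * C.re.1) && decide (0 < (bnsq pS C).1) &&
  decide (0 < (bnsq pS HB).1) && decide (0 < (bnsq pS ZB).1) &&
  pw pS rh (fun W => frB (bmul pS Y W) fun X =>
    decide (-2440402 * (pS : ℤ) ≤ 10 ^ 7 * X.re.1) && decide (10 ^ 7 * X.re.2 ≤ -2440401 * (pS : ℤ)) &&
    decide (-8888977 * (pS : ℤ) ≤ 10 ^ 7 * X.im.1) && decide (10 ^ 7 * X.im.2 ≤ -8888976 * (pS : ℤ)) &&
    pw pS rz (fun W' => frB (bmul pS V W') fun X' =>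
      decide (-(pS : ℤ) ≤ 10 ^ 9 * X'.re.1) && decide (10 ^ 9 * X'.re.2 ≤ (pS : ℤ))) bits rz) bits rh

theorem tst_run : go pS TL TH tst kap0list q0 (56 * pS - (56 * pS * pS / TL + 1))
    (56 * pS - 56 * pS * pS / TH) = true := by
  decide +kernel


/-- the consequences at 171 and 1525 -/
structure Out (T x0 z : ℝ) (th : ℂ) : Prop where
  C : 2.54e-5 ≤ Cn T x0 171
  x0_ne : x0 ≠ 0
  th_ne : th ≠ 0
  z_ne : z ≠ 0
  re : -0.2440402 ≤ (Zn T th 171 / (Cn T x0 171 : ℂ) * ((x0 : ℂ) / th) ^ 1354).re ∧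
    (Zn T th 171 / (Cn T x0 171 : ℂ) * ((x0 : ℂ) / th) ^ 1354).re ≤ -0.2440401
  im : -0.8888977 ≤ (Zn T th 171 / (Cn T x0 171 : ℂ) * ((x0 : ℂ) / th) ^ 1354).im ∧
    (Zn T th 171 / (Cn T x0 171 : ℂ) * ((x0 : ℂ) / th) ^ 1354).im ≤ -0.8888976
  zs : |zn T z 171 / Cn T x0 171 * (x0 / z) ^ 1354| ≤ 1 / 10 ^ 9

theorem scale_lo {p : ℕ} (hp : 0 < p) {I : ℤ × ℤ} {x : ℝ} (hx : MI p I x) (a : ℤ) (m : ℕ)
    (h : a * (p : ℤ) ≤ m * I.1) : (a : ℝ) ≤ m * x := by
  have hp' : (0 : ℝ) < p := by exact_mod_cast hp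
  have h1 : (a : ℝ) * p ≤ m * I.1 := by exact_mod_cast h
  have h2 : (m : ℝ) * I.1 ≤ m * (p * x) := mul_le_mul_of_nonneg_left hx.1 (Nat.cast_nonneg _)
  have h3 : (a : ℝ) * p ≤ (m * x) * p := by
    calc (a : ℝ) * p ≤ m * I.1 := h1
      _ ≤ m * (p * x) := h2
      _ = _ := by ring
  exact le_of_mul_le_mul_right h3 hp'

theorem scale_hi {p : ℕ} (hp : 0 < p) {I : ℤ × ℤ} {x : ℝ} (hx : MI p I x) (a : ℤ) (m : ℕ)
    (h : m * I.2 ≤ a * (p : ℤ)) : (m : ℝ) * x ≤ a := by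
  have hp' : (0 : ℝ) < p := by exact_mod_cast hp
  have h1 : (m : ℝ) * I.2 ≤ (a : ℝ) * p := by exact_mod_cast h
  have h2 : (m : ℝ) * (p * x) ≤ m * I.2 := mul_le_mul_of_nonneg_left hx.2 (Nat.cast_nonneg _)
  have h3 : ((m : ℝ) * x) * p ≤ a * p := by
    calc ((m : ℝ) * x) * p = m * (p * x) := by ring
      _ ≤ m * I.2 := h2
      _ ≤ _ := h1
  exact le_of_mul_le_mul_right h3 hp'

theorem out (hs : SortStmt) (hb : BarStmt) (ha : SimAStmt) {T x0 z : ℝ} {th : ℂ}
    (hT1 : Tlo ≤ T) (hT2 : T ≤ Thi) (hr : Roots T x0 z th) : Out T x0 z th := by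
  obtain ⟨t1, t2⟩ := T_enc hT1 hT2
  have hp := pS_pos
  have hTL : 0 < TL := by decide +kernel
  obtain ⟨q, e1, e2, hq, hk⟩ := state171 hs hb ha hT1 hT2 hp hTL t1 t2 tst
    (by decide +kernel) tst_run
  have hTB := mT hT1 hT2
  unfold tst at hk
  obtain ⟨F0, hF0, hk⟩ := phi_sound hp hq hTB (mX hr) _ hk
  obtain ⟨Fz, hFz, hk⟩ := phi_sound hp hq hTB (mZ hr) _ hk
  obtain ⟨Ft, hFt, hk⟩ := phi_sound hp hq hTB (mH hr) _ hk
  rw [PhiC_ofReal] at hF0 hFz
  simp only [frB_eq, Bool.and_eq_true, decide_eq_true_eq] at hk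
  obtain ⟨⟨⟨⟨hC1, hC2⟩, hH⟩, hZ⟩, hk⟩ := hk
  have hC : MB pS (bmul pS A0 F0) ((Cn T x0 171 : ℝ) : ℂ) := by
    have := mA0.mul hp hF0
    unfold Cn
    push_cast
    exact this
  obtain ⟨hCi, hC0⟩ := hC.inv hp hC2
  obtain ⟨hhi, hth0⟩ := (mH hr).inv hp hH
  obtain ⟨hzi, hz0⟩ := (mZ hr).inv hp hZ
  have hrh := (mX hr).mul hp hhi
  have hrz := (mX hr).mul hp hzi
  have hZn : MB pS (bmul pS A2 Ft) (Zn T th 171) := mA2.mul hp hFt
  have hzn : MB pS (bmul pS AZ Fz) ((zn T z 171 : ℝ) : ℂ) := by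
    have := mAZ.mul hp hFz
    unfold zn
    push_cast
    exact this
  have hY := hZn.mul hp hCi
  have hV := hzn.mul hp hCi
  obtain ⟨W, hW, hk⟩ := pw_sound hp hrh _ bits 1 _ (by rw [pow_one]; exact hrh) hk
  rw [bits_val] at hW
  simp only [frB_eq, Bool.and_eq_true, decide_eq_true_eq] at hk
  obtain ⟨⟨⟨⟨k1, k2⟩, k3⟩, k4⟩, hk⟩ := hk
  have hX := hY.mul hp hW
  obtain ⟨W', hW', hk⟩ := pw_sound hp hrz _ bits 1 _ (by rw [pow_one]; exact hrz) hk
  rw [bits_val] at hW'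
  simp only [frB_eq, Bool.and_eq_true, decide_eq_true_eq] at hk
  obtain ⟨k5, k6⟩ := hk
  have hX' := hV.mul hp hW'
  have hx0 : x0 ≠ 0 := by
    have h1 := (abs_le.mp hr.x0_enc).1
    intro h
    rw [h] at h1
    unfold x0N at h1
    norm_num at h1
  have eX : Zn T th 171 * ((Cn T x0 171 : ℝ) : ℂ)⁻¹ * ((x0 : ℂ) * th⁻¹) ^ 1354
      = Zn T th 171 / (Cn T x0 171 : ℂ) * ((x0 : ℂ) / th) ^ 1354 := by
    rw [div_eq_mul_inv, div_eq_mul_inv]
  rw [eX] at hX
  have eX' : ((zn T z 171 : ℝ) : ℂ) * ((Cn T x0 171 : ℝ) : ℂ)⁻¹ * ((x0 : ℂ) * (z : ℂ)⁻¹) ^ 1354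
      = ((zn T z 171 / Cn T x0 171 * (x0 / z) ^ 1354 : ℝ) : ℂ) := by
    push_cast
    rw [div_eq_mul_inv, div_eq_mul_inv]
  rw [eX'] at hX'
  have hXr := hX'.1
  rw [Complex.ofReal_re] at hXr
  have hCr := hC.1
  rw [Complex.ofReal_re] at hCr
  refine ⟨?_, hx0, hth0, ?_, ⟨?_, ?_⟩, ⟨?_, ?_⟩, ?_⟩
  · have := scale_lo hp hCr 254 (10 ^ 7) (by push_cast; exact hC1)
    push_cast at this
    linarith
  · exact_mod_cast hz0
  · have := scale_lo hp hX.1 (-2440402) (10 ^ 7) (by push_cast; exact k1)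
    push_cast at this
    linarith
  · have := scale_hi hp hX.1 (-2440401) (10 ^ 7) (by push_cast; exact k2)
    push_cast at this
    linarith
  · have := scale_lo hp hX.2 (-8888977) (10 ^ 7) (by push_cast; exact k3)
    push_cast at this
    linarith
  · have := scale_hi hp hX.2 (-8888976) (10 ^ 7) (by push_cast; exact k4)
    push_cast at this
    linarith
  · have h1 := scale_lo hp hXr (-1) (10 ^ 9) (by push_cast; linarith)
    have h2 := scale_hi hp hXr 1 (10 ^ 9) (by push_cast; linarith)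
    push_cast at h1 h2
    rw [abs_le]
    constructor
    · linarith
    · linarith

end SA.H41
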