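import Pool.Agent.Helper41_SA.Sim

/-!
# SIM, final assembly
-/

set_option autoImplicit false

namespace SA.H41

open SA

/-- WLE (helper88): the starts are small in the quiet phase -/
def WleStmt : Prop := ∀ (T x0 z : ℝ) (th : ℂ), Tlo ≤ T → T ≤ Thi → Roots T x0 z th →
  2.54e-5 ≤ Cn T x0 171 → ∀ n, 245 ≤ n → n < 1525 → Wn T n ≤ 4 * (Cn T x0 171 / x0 ^ (n - 171))

theorem cos_c1 {w : ℝ} (hw : |w - 0.128606789191749| ≤ 1 / 10 ^ 12) :
    0.2656 ≤ Real.cos (10.12 * w) ∧ Real.cos (10.14 * w) ≤ 0.2639 := by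
  obtain ⟨h1, h2⟩ := abs_le.mp hw
  have p1 := Real.pi_gt_d6
  have p2 := Real.pi_lt_d6
  norm_num at h1 h2
  constructor
  · rw [← Real.sin_pi_div_two_sub]
    set y := Real.pi / 2 - 10.12 * w with hy
    have y1 : 0.26929 ≤ y := by rw [hy]; linarith
    have y2 : y ≤ 0.26930 := by rw [hy]; linarith
    have hb := (abs_le.mp (Real.sin_bound (x := y) (by rw [abs_le]; constructor <;> linarith))).1
    have ha : |y| = y := abs_of_nonneg (by linarith)
    rw [ha] at hb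
    have y3 : y ^ 3 ≤ 0.26930 ^ 3 := pow_le_pow_left₀ (by linarith) y2 3
    have y4 : y ^ 5 ≤ 0.26930 ^ 5 := pow_le_pow_left₀ (by linarith) y2 5
    norm_num at y3 y4
    linarith
  · rw [← Real.sin_pi_div_two_sub]
    set y := Real.pi / 2 - 10.14 * w with hy
    have y1 : 0.26672 ≤ y := by rw [hy]; linarith
    have y2 : y ≤ 0.26673 := by rw [hy]; linarith
    have hb := (abs_le.mp (Real.sin_bound (x := y) (by rw [abs_le]; constructor <;> linarith))).2
    have ha : |y| = y := abs_of_nonneg (by linarith)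
    rw [ha] at hb
    have y3 : 0.26672 ^ 3 ≤ y ^ 3 := pow_le_pow_left₀ (by norm_num) y1 3
    have y4 : y ^ 5 ≤ 0.26673 ^ 5 := pow_le_pow_left₀ (by linarith) y2 5
    norm_num at y3 y4
    linarith

theorem polar {w : ℝ} (hw : |w - 0.128606789191749| ≤ 1 / 10 ^ 12) {ξ : ℂ}
    (r1 : 0.2440401 ≤ ξ.re) (r2 : ξ.re ≤ 0.2440402) (i1 : 0.8888976 ≤ ξ.im)
    (i2 : ξ.im ≤ 0.8888977) : |‖ξ‖ - 0.9217888| ≤ 1 / 10 ^ 6 ∧
      10.12 ≤ ξ.arg / w ∧ ξ.arg / w ≤ 10.14 := by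
  have hsq : ‖ξ‖ ^ 2 = ξ.re ^ 2 + ξ.im ^ 2 := by
    rw [Complex.sq_norm, Complex.normSq_apply]; ring
  have hn0 : 0 ≤ ‖ξ‖ := norm_nonneg _
  have s1 : (0.2440401 : ℝ) ^ 2 ≤ ξ.re ^ 2 := pow_le_pow_left₀ (by norm_num) r1 2
  have s2 : ξ.re ^ 2 ≤ (0.2440402 : ℝ) ^ 2 := pow_le_pow_left₀ (by linarith) r2 2
  have s3 : (0.8888976 : ℝ) ^ 2 ≤ ξ.im ^ 2 := pow_le_pow_left₀ (by norm_num) i1 2
  have s4 : ξ.im ^ 2 ≤ (0.8888977 : ℝ) ^ 2 := pow_le_pow_left₀ (by linarith) i2 2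
  have n1 : 0.9217884 ≤ ‖ξ‖ := by
    by_contra hc
    push Not at hc
    have : ‖ξ‖ ^ 2 < 0.9217884 ^ 2 := pow_lt_pow_left₀ hc hn0 (by norm_num)
    norm_num at this s1 s2 s3 s4
    linarith
  have n2 : ‖ξ‖ ≤ 0.9217892 := by
    by_contra hc
    push Not at hc
    have : 0.9217892 ^ 2 < ‖ξ‖ ^ 2 := pow_lt_pow_left₀ hc (by norm_num) (by norm_num)
    norm_num at this s1 s2 s3 s4
    linarith
  have hξ : ξ ≠ 0 := by
    intro h
    rw [h, norm_zero] at n1
    norm_num at n1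
  have hcos := Complex.cos_arg hξ
  have hnp : 0 < ‖ξ‖ := by linarith
  have c1 : Real.cos ξ.arg ≤ 0.2648 := by
    rw [hcos, div_le_iff₀ hnp]; linarith
  have c2 : 0.2646 ≤ Real.cos ξ.arg := by
    rw [hcos, le_div_iff₀ hnp]; linarith
  obtain ⟨d1, d2⟩ := cos_c1 hw
  obtain ⟨h1, h2⟩ := abs_le.mp hw
  norm_num at h1 h2
  have hw0 : 0 < w := by linarith
  have p1 := Real.pi_gt_d6
  have harg0 : 0 ≤ ξ.arg := Complex.arg_nonneg_iff.mpr (by linarith)
  have hargpi : ξ.arg ≤ Real.pi := Complex.arg_le_pi ξ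
  refine ⟨?_, ?_, ?_⟩
  · rw [abs_le]
    norm_num
    constructor <;> linarith
  · rw [le_div_iff₀ hw0]
    by_contra hc
    push Not at hc
    have := Real.cos_lt_cos_of_nonneg_of_le_pi harg0 (by linarith) hc
    linarith
  · rw [div_le_iff₀ hw0]
    by_contra hc
    push Not at hc
    have := Real.cos_lt_cos_of_nonneg_of_le_pi (by linarith) hargpi hc
    linarith

theorem alg1 {F : Type} [Field F] {u v c a : F} (hu : u ≠ 0) (hv : v ≠ 0) (hc : c ≠ 0) :
    -a / c = -(u * a / (v * c) * (v / u)) := by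
  field_simp

theorem alg2 {F : Type} [Field F] {u v c a : F} (hu : u ≠ 0) (hv : v ≠ 0) (hc : c ≠ 0) :
    a / c = u * a / (v * c) * (v / u) := by
  field_simp

theorem alg3 {a b c : ℝ} (ha : a ≠ 0) : a * b * c / a = c * b := by
  field_simp

theorem sim (hs : SortStmt) (hb : BarStmt) (ha : SimAStmt) (hpd : PdStmt) (hmr : ModRStmt)
    (hmc : ModCStmt) (hnr : NumRootStmt) (hwle : WleStmt) : SimStmt := by
  intro T x0 z th hT1 hT2 hr
  obtain ⟨hval, hk0, hkq⟩ := ha T hT1 hT2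
  have o := out hs hb ha hT1 hT2 hr
  have nr := hnr T x0 z th hT1 hT2 hr
  have hT0 : T ≠ 0 := by
    have := nr.T_lo
    intro h
    rw [h] at this
    norm_num at this
  have hx0 := nr.x0_lo
  have hx0p : 0 < x0 := by linarith
  have hx1 : x0 ≠ 1 := by
    intro h
    rw [h] at hx0
    norm_num at hx0
  have hz1 : z ≠ 1 := by
    intro h
    have := nr.z_hi
    rw [h] at this
    norm_num at this
  have hth1 : th ≠ 1 := by
    intro h
    have h1 := nr.omg_enc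
    rw [h] at h1
    unfold omg at h1
    rw [Complex.arg_one] at h1
    norm_num [abs_le] at h1
  have qR : ∀ k, k ≤ 1354 → x0 ^ k * Cn T x0 (171 + k) = Cn T x0 171 := by
    intro k hk
    have := quietR hpd hmr hT0 hx0p.ne' hx1 hr.x0_root hval hkq k hk
    unfold Cn
    rw [← this]
    ring
  have qz : z ^ 1354 * zn T z 1525 = zn T z 171 := by
    have := quietR hpd hmr hT0 o.z_ne hz1 hr.z_root hval hkq 1354 le_rfl
    unfold zn
    rw [← this]
    ring
  have qt : th ^ 1354 * Zn T th 1525 = Zn T th 171 := by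
    have := quietC hpd hmc hT0 o.th_ne hth1 hr.th_root hval hkq 1354 le_rfl
    unfold Zn
    rw [← this]
    ring
  have qC : x0 ^ 1354 * Cn T x0 1525 = Cn T x0 171 := qR 1354 le_rfl
  have hC171 : 0 < Cn T x0 171 := lt_of_lt_of_le (by norm_num) o.C
  have hpow : 0 < x0 ^ 1354 := by positivity
  have hC1525 : 0 < Cn T x0 1525 := by
    rw [← qC] at hC171
    exact (mul_pos_iff_of_pos_left hpow).mp hC171
  -- xin
  have hxin : xin T x0 th 1525
      = -(Zn T th 171 / (Cn T x0 171 : ℂ) * ((x0 : ℂ) / th) ^ 1354) := by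
    unfold xin
    rw [← qt, ← qC]
    have h1 : ((x0 : ℂ)) ^ 1354 ≠ 0 := by
      rw [← Complex.ofReal_pow]
      exact_mod_cast hpow.ne'
    have h2 : th ^ 1354 ≠ 0 := pow_ne_zero _ o.th_ne
    have h3 : ((Cn T x0 1525 : ℝ) : ℂ) ≠ 0 := by exact_mod_cast hC1525.ne'
    rw [div_pow]
    push_cast
    exact alg1 h2 h1 h3
  have hzt : ztn T x0 z 1525 = zn T z 171 / Cn T x0 171 * (x0 / z) ^ 1354 := by
    unfold ztn
    rw [← qz, ← qC]
    have h2 : z ^ 1354 ≠ 0 := pow_ne_zero _ o.z_ne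
    rw [div_pow]
    exact alg2 h2 hpow.ne' hC1525.ne'
  have hpol := polar (w := omg th) nr.omg_enc (ξ := xin T x0 th 1525)
    (by rw [hxin, Complex.neg_re]; linarith [o.re.2])
    (by rw [hxin, Complex.neg_re]; linarith [o.re.1])
    (by rw [hxin, Complex.neg_im]; linarith [o.im.2])
    (by rw [hxin, Complex.neg_im]; linarith [o.im.1])
  refine ⟨hval, hk0, hkq, hC1525, ?_, hpol.1, hpol.2, ?_⟩
  · intro n h1 h2
    have h3 := hwle T x0 z th hT1 hT2 hr o.C n h1 h2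
    have e : (n - 171) + (1525 - n) = 1354 := by omega
    have hp1 : 0 < x0 ^ (n - 171) := by positivity
    have e2 : x0 ^ (n - 171) * x0 ^ (1525 - n) = x0 ^ 1354 := by
      rw [← pow_add, e]
    have e3 : Cn T x0 171 / x0 ^ (n - 171) = Cn T x0 1525 * x0 ^ (1525 - n) := by
      rw [← qC, ← e2]
      exact alg3 hp1.ne'
    rw [e3] at h3
    exact h3
  · rw [hzt]
    refine o.zs.trans ?_
    norm_num

end SA.H41
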