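import Pool.Agent.Helper41_SA.Sim2
import Pool.Agent.Helper88_SA.Wle

/-! # SIM with WLE inserted -/

set_option autoImplicit false

namespace SA.H41

open SA

theorem wle : ∀ (T x0 z : ℝ) (th : ℂ), NumRoot T x0 z th → Tlo ≤ T → T ≤ Thi →
    2.54e-5 ≤ Cn T x0 171 → ∀ n, 245 ≤ n → n < 1525 →
      Wn T n ≤ 4 * (Cn T x0 171 / x0 ^ (n - 171)) := by
  intro T x0 z th hnr h1 h2 hC
  have hx := hnr.x0_lo
  exact SA.H88W.wle' T x0 h1 h2 (by linarith) hnr.x0_hi (by norm_num at hC ⊢; linarith)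

/-- SIM -/
theorem simF (hs : SortStmt) (hb : BarStmt) (ha : SimAStmt) (hpd : PdStmt) (hmr : ModRStmt)
    (hmc : ModCStmt) (hnr : NumRootStmt) : SimStmt :=
  sim hs hb ha hpd hmr hmc hnr (fun T x0 z th h1 h2 hr hC =>
    wle T x0 z th (hnr T x0 z th h1 h2 hr) h1 h2 hC)

end SA.H41
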