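import Pool.Agent.Helper88_SA.StmtA
import Pool.Agent.Helper88_SA.StmtN

/-!
# Interval simulation of the greedy flow with known thresholds
-/

set_option autoImplicit false

namespace SA.H41

open SA Finset

/-- exact form of one step when the threshold is known -/
structure StepForm (T : ℝ) (n κ : ℕ) : Prop where
  B_eq : (56 - (κ : ℝ)) * Bn T n = (gr T n).E + ∑ j ∈ Finset.Ico κ 56, (gr T n).Q j
  Q_lt : ∀ j, j < κ → (gr T (n + 1)).Q j = (gr T n).Q j
  Q_eq : (gr T (n + 1)).Q κ = Bn T n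
  Q_gt : ∀ j, κ < j → j < 56 → (gr T (n + 1)).Q j = (gr T n).Q (j - 1)
  E_eq : (gr T (n + 1)).E
    = (gr T n).E - (56 - ∑ j ∈ Finset.range 56, (gr T (n + 1)).Q j) / T

theorem stepForm (hs : SortStmt) (hb : BarStmt) {T : ℝ} {n κ : ℕ} (hv : Valid T n)
    (hk : kap T n = κ) (hκ : κ < 56) : StepForm T n κ := by
  obtain ⟨hmono, -, -, -⟩ := hs T n
  obtain ⟨hB, -, -⟩ := hb T n hv
  have hF : (Finset.range 56).filter (fun j => (gr T n).B < (gr T n).Q j) = Finset.range κ := by
    apply Finset.eq_of_subset_of_card_le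
    · intro j hj
      rw [Finset.mem_filter, Finset.mem_range] at hj
      have hsub : Finset.range (j + 1) ⊆
          (Finset.range 56).filter (fun j => (gr T n).B < (gr T n).Q j) := by
        intro i hi
        rw [Finset.mem_range] at hi
        rw [Finset.mem_filter, Finset.mem_range]
        exact ⟨by omega, lt_of_lt_of_le hj.2 (hmono i j (by omega) hj.1)⟩
      have hc := Finset.card_le_card hsub
      rw [Finset.card_range] at hc
      have : j + 1 ≤ κ := by rw [← hk]; exact hc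
      rw [Finset.mem_range]
      omega
    · rw [Finset.card_range, ← hk]
      exact le_refl _
  have hiff : ∀ j, j < 56 → ((gr T n).B < (gr T n).Q j ↔ j < κ) := by
    intro j hj
    have := Finset.ext_iff.mp hF j
    rw [Finset.mem_filter, Finset.mem_range, Finset.mem_range] at this
    constructor
    · intro h; exact this.mp ⟨hj, h⟩
    · intro h; exact (this.mpr h).2
  have hge : ∀ j, κ ≤ j → j < 56 → (gr T n).Q j ≤ (gr T n).B := by
    intro j h1 h2
    by_contra hc
    push Not at hc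
    have := (hiff j h2).mp hc
    omega
  have hlt : ∀ j, j < κ → (gr T n).B < (gr T n).Q j := fun j hj => (hiff j (by omega)).mpr hj
  have hQ : ∀ j, (gr T (n + 1)).Q j = (gr T n).ins j := fun _ => rfl
  refine ⟨?_, ?_, ?_, ?_, rfl⟩
  · have h1 : ∑ j ∈ Finset.range 56, max (Bn T n - (gr T n).Q j) 0
        = ∑ j ∈ Finset.Ico κ 56, (Bn T n - (gr T n).Q j) := by
      rw [← Finset.sum_range_add_sum_Ico _ hκ.le]
      have h0 : ∑ j ∈ Finset.range κ, max (Bn T n - (gr T n).Q j) 0 = 0 := by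
        apply Finset.sum_eq_zero
        intro j hj
        rw [Finset.mem_range] at hj
        have := hlt j hj
        apply max_eq_right
        unfold Bn
        linarith
      rw [h0, zero_add]
      apply Finset.sum_congr rfl
      intro j hj
      rw [Finset.mem_Ico] at hj
      have := hge j hj.1 hj.2
      apply max_eq_left
      unfold Bn
      linarith
    rw [h1, Finset.sum_sub_distrib, Finset.sum_const, Nat.card_Ico, nsmul_eq_mul] at hB
    have hc : ((56 - κ : ℕ) : ℝ) = 56 - (κ : ℝ) := by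
      rw [Nat.cast_sub hκ.le]
      norm_num
    rw [hc] at hB
    linarith
  · intro j hj
    have h1 := hlt j hj
    rw [hQ, St.ins]
    by_cases h0 : j = 0
    · subst h0
      rw [if_pos rfl]
      exact max_eq_left h1.le
    · rw [if_neg h0, if_pos (by omega)]
      exact max_eq_left ((min_le_right _ _).trans h1.le)
  · rw [hQ, St.ins]
    have h1 := hge κ le_rfl hκ
    by_cases h0 : κ = 0
    · rw [if_pos h0]
      rw [h0] at h1
      exact max_eq_right h1
    · rw [if_neg h0, if_pos hκ]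
      have h2 := hlt (κ - 1) (by omega)
      rw [min_eq_right h2.le]
      exact max_eq_right h1
  · intro j h1 h2
    rw [hQ, St.ins, if_neg (by omega), if_pos h2]
    have h3 := hge (j - 1) (by omega) (by omega)
    rw [min_eq_left h3]
    exact max_eq_right (hmono (j - 1) j (by omega) h2)

/-! ## enclosures -/

/-- `x` lies in `[a.1, a.2] / p`, with `p = 2 ^ P` -/
def Enc (p : ℕ) (a : ℕ × ℕ) (x : ℝ) : Prop := (a.1 : ℝ) ≤ p * x ∧ p * x ≤ a.2

def s1 : List (ℕ × ℕ) → ℕ
  | [] => 0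
  | a :: t => a.1 + s1 t
def s2 : List (ℕ × ℕ) → ℕ
  | [] => 0
  | a :: t => a.2 + s2 t

theorem enc_sum (p : ℕ) (l : List (ℕ × ℕ)) : ∀ (f : ℕ → ℝ),
    (∀ j, j < l.length → Enc p (l.getD j (0, 0)) (f j)) →
    Enc p (s1 l, s2 l) (∑ j ∈ Finset.range l.length, f j) := by
  induction l with
  | nil => intro f _; simp [Enc, s1, s2]
  | cons a t ih =>
    intro f h
    have h0 := h 0 (by simp)
    have ht := ih (fun j => f (j + 1)) (fun j hj => by
      have := h (j + 1) (by simpa using hj)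
      simpa using this)
    rw [List.length_cons, Finset.sum_range_succ']
    simp only [Enc, s1, s2, List.getD_cons_zero] at h0 ht ⊢
    push_cast
    rw [mul_add]
    constructor
    · linarith [h0.1, ht.1]
    · linarith [h0.2, ht.2]

/-- insertion at position `κ`, dropping the last entry of a list of length 56 -/
def insL (κ : ℕ) (b : ℕ × ℕ) (l : List (ℕ × ℕ)) : List (ℕ × ℕ) :=
  l.take κ ++ b :: (l.drop κ).take (55 - κ)

theorem insL_length {κ : ℕ} {b : ℕ × ℕ} {l : List (ℕ × ℕ)} (hl : l.length = 56) (hκ : κ < 56) :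
    (insL κ b l).length = 56 := by
  simp [insL, hl]
  omega

theorem insL_getD {κ : ℕ} {b : ℕ × ℕ} {l : List (ℕ × ℕ)} (hl : l.length = 56) (hκ : κ < 56)
    (j : ℕ) (hj : j < 56) : (insL κ b l).getD j (0, 0)
      = if j < κ then l.getD j (0, 0) else if j = κ then b else l.getD (j - 1) (0, 0) := by
  have hlen : (l.take κ).length = κ := by simp [hl]; omega
  by_cases h1 : j < κ
  · rw [if_pos h1]
    simp only [insL, List.getD_eq_getElem?_getD]
    rw [List.getElem?_append_left (by omega), List.getElem?_take_of_lt h1]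
  · rw [if_neg h1]
    simp only [insL, List.getD_eq_getElem?_getD]
    rw [List.getElem?_append_right (by omega), hlen]
    by_cases h2 : j = κ
    · subst h2
      simp
    · rw [if_neg h2]
      obtain ⟨m, rfl⟩ : ∃ m, j = κ + (m + 1) := ⟨j - κ - 1, by omega⟩
      have e1 : κ + (m + 1) - κ = m + 1 := by omega
      have e2 : κ + (m + 1) - 1 = κ + m := by omega
      rw [e1, e2, List.getElem?_cons_succ, List.getElem?_take_of_lt (by omega),
        List.getElem?_drop]

/-- enclosure of the state `n` -/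
structure EncS (p : ℕ) (T : ℝ) (n : ℕ) (q : List (ℕ × ℕ)) (e1 e2 : ℕ) : Prop where
  len : q.length = 56
  Q : ∀ j, j < 56 → Enc p (q.getD j (0, 0)) ((gr T n).Q j)
  E : Enc p (e1, e2) (gr T n).E

theorem encS_step {p Tl Th : ℕ} {T : ℝ} {n κ : ℕ} {q : List (ℕ × ℕ)} {e1 e2 : ℕ}
    (hp : 0 < p) (hTl : 0 < Tl) (h1 : (Tl : ℝ) ≤ p * T) (h2 : p * T ≤ Th)
    (hκ : κ < 56) (hf : StepForm T n κ) (h : EncS p T n q e1 e2)
    (b1 b2 t1 t2 : ℕ) (hb1 : b1 = (e1 + s1 (q.drop κ)) / (56 - κ))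
    (hb2 : b2 = (e2 + s2 (q.drop κ) + (55 - κ)) / (56 - κ))
    (ht1 : t1 = s1 (insL κ (b1, b2) q)) (ht2 : t2 = s2 (insL κ (b1, b2) q))
    (hc1 : t2 ≤ 56 * p) (hc2 : (56 * p - t1) * p / Tl + 1 ≤ e1) :
    Enc p (b1, b2) (Bn T n) ∧
    EncS p T (n + 1) (insL κ (b1, b2) q) (e1 - ((56 * p - t1) * p / Tl + 1))
      (e2 - (56 * p - t2) * p / Th) := by
  have hp' : (0 : ℝ) < p := by exact_mod_cast hp
  have hTl' : (0 : ℝ) < Tl := by exact_mod_cast hTl
  have hT : 0 < T := by
    by_contra hc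
    push Not at hc
    have : (p : ℝ) * T ≤ 0 := mul_nonpos_of_nonneg_of_nonpos hp'.le hc
    linarith
  have hm : (0 : ℝ) < 56 - (κ : ℝ) := by
    have : (κ : ℝ) < 56 := by exact_mod_cast hκ
    linarith
  have hmc : ((56 - κ : ℕ) : ℝ) = 56 - (κ : ℝ) := by
    rw [Nat.cast_sub hκ.le]; norm_num
  -- sum over the tail
  have hd : Enc p (s1 (q.drop κ), s2 (q.drop κ)) (∑ j ∈ Finset.Ico κ 56, (gr T n).Q j) := by
    have := enc_sum p (q.drop κ) (fun j => (gr T n).Q (κ + j)) (fun j hj => by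
      rw [List.length_drop, h.len] at hj
      have h3 := h.Q (κ + j) (by omega)
      simp only [List.getD_eq_getElem?_getD, List.getElem?_drop] at h3 ⊢
      exact h3)
    rw [List.length_drop, h.len] at this
    rw [Finset.sum_Ico_eq_sum_range]
    exact this
  have hB : Enc p (b1, b2) (Bn T n) := by
    have e : (p : ℝ) * Bn T n = (p * (gr T n).E + p * ∑ j ∈ Finset.Ico κ 56, (gr T n).Q j)
        / (56 - (κ : ℝ)) := by
      rw [eq_div_iff hm.ne', ← mul_add, ← hf.B_eq]
      ring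
    constructor
    · change (b1 : ℝ) ≤ p * Bn T n
      rw [e, le_div_iff₀ hm, ← hmc]
      have h4 : b1 * (56 - κ) ≤ e1 + s1 (q.drop κ) := by
        rw [hb1]; exact Nat.div_mul_le_self _ _
      have h5 : (b1 : ℝ) * ((56 - κ : ℕ) : ℝ) ≤ e1 + s1 (q.drop κ) := by exact_mod_cast h4
      have h6 := h.E.1
      have h7 := hd.1
      simp only at h6 h7
      linarith
    · change p * Bn T n ≤ (b2 : ℝ)
      rw [e, div_le_iff₀ hm, ← hmc]
      have h4 : e2 + s2 (q.drop κ) ≤ b2 * (56 - κ) := by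
        have h8 := Nat.lt_div_mul_add (a := e2 + s2 (q.drop κ) + (55 - κ)) (b := 56 - κ) (by omega)
        rw [← hb2] at h8
        omega
      have h5 : (e2 : ℝ) + s2 (q.drop κ) ≤ (b2 : ℝ) * ((56 - κ : ℕ) : ℝ) := by exact_mod_cast h4
      have h6 := h.E.2
      have h7 := hd.2
      simp only at h6 h7
      linarith
  have hlen := insL_length (b := (b1, b2)) h.len hκ
  have hQ : ∀ j, j < 56 → Enc p ((insL κ (b1, b2) q).getD j (0, 0)) ((gr T (n + 1)).Q j) := by
    intro j hj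
    rw [insL_getD h.len hκ j hj]
    by_cases h3 : j < κ
    · rw [if_pos h3, hf.Q_lt j h3]; exact h.Q j hj
    · rw [if_neg h3]
      by_cases h4 : j = κ
      · rw [if_pos h4, h4, hf.Q_eq]; exact hB
      · rw [if_neg h4, hf.Q_gt j (by omega) hj]; exact h.Q (j - 1) (by omega)
  refine ⟨hB, hlen, hQ, ?_⟩
  have hsum : Enc p (t1, t2) (∑ j ∈ Finset.range 56, (gr T (n + 1)).Q j) := by
    have := enc_sum p (insL κ (b1, b2) q) (fun j => (gr T (n + 1)).Q j)
      (fun j hj => hQ j (by rw [hlen] at hj; exact hj))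
    rw [hlen, ← ht1, ← ht2] at this
    exact this
  set SS := ∑ j ∈ Finset.range 56, (gr T (n + 1)).Q j with hSS
  have e : (p : ℝ) * (gr T (n + 1)).E = p * (gr T n).E - (56 * p - p * SS) / T := by
    rw [hf.E_eq, ← hSS]
    ring
  have hs1 := hsum.1
  have hs2 := hsum.2
  have hE1 := h.E.1
  have hE2 := h.E.2
  simp only at hs1 hs2 hE1 hE2
  constructor
  · change ((e1 - ((56 * p - t1) * p / Tl + 1) : ℕ) : ℝ) ≤ _
    rw [Nat.cast_sub hc2, e]
    have h8 : (56 * (p : ℝ) - p * SS) / T ≤ (((56 * p - t1) * p / Tl + 1 : ℕ) : ℝ) := by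
      rw [div_le_iff₀ hT]
      have h9 : ((56 * p - t1) * p : ℕ) < ((56 * p - t1) * p / Tl + 1) * Tl := by
        have := Nat.lt_div_mul_add (a := (56 * p - t1) * p) (b := Tl) hTl
        linarith
      have h10 : (((56 * p - t1 : ℕ) : ℝ)) * p < (((56 * p - t1) * p / Tl + 1 : ℕ) : ℝ) * Tl := by
        exact_mod_cast h9
      have h11 : 56 * (p : ℝ) - p * SS ≤ ((56 * p - t1 : ℕ) : ℝ) := by
        have h12 : (56 * (p : ℝ) - t1) ≤ ((56 * p - t1 : ℕ) : ℝ) := by
          rw [sub_le_iff_le_add]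
          have : 56 * p ≤ (56 * p - t1) + t1 := by omega
          exact_mod_cast this
        linarith
      have h13 : (56 * (p : ℝ) - p * SS) * p ≤ ((56 * p - t1 : ℕ) : ℝ) * p :=
        mul_le_mul_of_nonneg_right h11 hp'.le
      have h14 : (((56 * p - t1) * p / Tl + 1 : ℕ) : ℝ) * Tl
          ≤ (((56 * p - t1) * p / Tl + 1 : ℕ) : ℝ) * (p * T) :=
        mul_le_mul_of_nonneg_left h1 (Nat.cast_nonneg _)
      have h15 : (56 * (p : ℝ) - p * SS) * p
          ≤ ((((56 * p - t1) * p / Tl + 1 : ℕ) : ℝ) * T) * p := by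
        calc (56 * (p : ℝ) - p * SS) * p ≤ ((56 * p - t1 : ℕ) : ℝ) * p := h13
          _ ≤ (((56 * p - t1) * p / Tl + 1 : ℕ) : ℝ) * Tl := h10.le
          _ ≤ (((56 * p - t1) * p / Tl + 1 : ℕ) : ℝ) * (p * T) := h14
          _ = _ := by ring
      exact le_of_mul_le_mul_right h15 hp'
    linarith
  · change _ ≤ ((e2 - (56 * p - t2) * p / Th : ℕ) : ℝ)
    have h7 : (e2 : ℝ) - (((56 * p - t2) * p / Th : ℕ) : ℝ)
        ≤ ((e2 - (56 * p - t2) * p / Th : ℕ) : ℝ) := by
      rw [sub_le_iff_le_add]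
      have : e2 ≤ (e2 - (56 * p - t2) * p / Th) + (56 * p - t2) * p / Th := by omega
      exact_mod_cast this
    have h8 : (((56 * p - t2) * p / Th : ℕ) : ℝ) ≤ (56 * (p : ℝ) - p * SS) / T := by
      rw [le_div_iff₀ hT]
      have h9 : ((56 * p - t2) * p / Th) * Th ≤ (56 * p - t2) * p := Nat.div_mul_le_self _ _
      have h10 : (((56 * p - t2) * p / Th : ℕ) : ℝ) * Th ≤ ((56 * p - t2 : ℕ) : ℝ) * p := by
        exact_mod_cast h9
      have h11 : ((56 * p - t2 : ℕ) : ℝ) ≤ 56 * (p : ℝ) - p * SS := by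
        rw [Nat.cast_sub hc1]
        push_cast
        linarith
      have h13 : ((56 * p - t2 : ℕ) : ℝ) * p ≤ (56 * (p : ℝ) - p * SS) * p :=
        mul_le_mul_of_nonneg_right h11 hp'.le
      have h14 : (((56 * p - t2) * p / Th : ℕ) : ℝ) * (p * T)
          ≤ (((56 * p - t2) * p / Th : ℕ) : ℝ) * Th :=
        mul_le_mul_of_nonneg_left h2 (Nat.cast_nonneg _)
      have h15 : ((((56 * p - t2) * p / Th : ℕ) : ℝ) * T) * p ≤ (56 * (p : ℝ) - p * SS) * p := by
        calc ((((56 * p - t2) * p / Th : ℕ) : ℝ) * T) * p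
            = (((56 * p - t2) * p / Th : ℕ) : ℝ) * (p * T) := by ring
          _ ≤ (((56 * p - t2) * p / Th : ℕ) : ℝ) * Th := h14
          _ ≤ _ := h10.trans h13
      exact le_of_mul_le_mul_right h15 hp'
    rw [e]
    linarith

/-! ## kernel friendly run -/

/-- forces the evaluation of a natural number -/
def frc {α : Type} (n : ℕ) (k : ℕ → α) : α := Nat.rec (k 0) (fun m _ => k (m + 1)) n

theorem frc_eq {α : Type} (n : ℕ) (k : ℕ → α) : frc n k = k n := by cases n <;> rfl

/-- forces the evaluation of a list -/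
def nrm {α : Type} : List (ℕ × ℕ) → (List (ℕ × ℕ) → α) → α
  | [], k => k []
  | a :: t, k => frc a.1 fun x => frc a.2 fun y => nrm t fun t' => k ((x, y) :: t')

theorem nrm_eq {α : Type} (l : List (ℕ × ℕ)) : ∀ k : List (ℕ × ℕ) → α, nrm l k = k l := by
  induction l with
  | nil => intro k; rfl
  | cons a t ih => intro k; simp only [nrm, frc_eq, ih]

/-- simulation with the thresholds `ks`, then the test `k` -/
def go (p Tl Th : ℕ) (k : List (ℕ × ℕ) → ℕ → ℕ → Bool) :
    List ℕ → List (ℕ × ℕ) → ℕ → ℕ → Bool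
  | [], q, e1, e2 => k q e1 e2
  | κ :: ks, q, e1, e2 =>
    frc ((e1 + s1 (q.drop κ)) / (56 - κ)) fun b1 =>
    frc ((e2 + s2 (q.drop κ) + (55 - κ)) / (56 - κ)) fun b2 =>
    nrm (insL κ (b1, b2) q) fun q' =>
    frc (s1 q') fun t1 => frc (s2 q') fun t2 =>
    frc ((56 * p - t1) * p / Tl + 1) fun u1 =>
    frc ((56 * p - t2) * p / Th) fun u2 =>
    frc (e1 - u1) fun e1' => frc (e2 - u2) fun e2' =>
    (Nat.ble t2 (56 * p) && Nat.ble u1 e1 && Nat.blt κ 56) && go p Tl Th k ks q' e1' e2'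

theorem go_sound {p Tl Th : ℕ} {T : ℝ} (hp : 0 < p) (hTl : 0 < Tl) (h1 : (Tl : ℝ) ≤ p * T)
    (h2 : p * T ≤ Th) (k : List (ℕ × ℕ) → ℕ → ℕ → Bool) (ks : List ℕ) :
    ∀ (n : ℕ) (q : List (ℕ × ℕ)) (e1 e2 : ℕ),
      (∀ i, i < ks.length → ks.getD i 0 < 56 → StepForm T (n + i) (ks.getD i 0)) →
      EncS p T n q e1 e2 → go p Tl Th k ks q e1 e2 = true →
      ∃ q' e1' e2', EncS p T (n + ks.length) q' e1' e2' ∧ k q' e1' e2' = true := by
  induction ks with
  | nil =>
    intro n q e1 e2 _ h hgo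
    exact ⟨q, e1, e2, h, hgo⟩
  | cons κ ks ih =>
    intro n q e1 e2 hf h hgo
    simp only [go, frc_eq, nrm_eq, Bool.and_eq_true, Nat.ble_eq, Nat.blt_eq] at hgo
    obtain ⟨⟨⟨hc1, hc2⟩, hκ⟩, hgo⟩ := hgo
    have hf0 := hf 0 (by simp) (by simpa using hκ)
    simp only [List.getD_cons_zero, Nat.add_zero] at hf0
    have hst := (encS_step hp hTl h1 h2 hκ hf0 h _ _ _ _ rfl rfl rfl rfl hc1 hc2).2
    obtain ⟨q', e1', e2', hq, hk⟩ := ih (n + 1) _ _ _ (fun i hi h56 => by
      have := hf (i + 1) (by simpa using hi) (by simpa using h56)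
      simp only [List.getD_cons_succ] at this
      have e : n + 1 + i = n + (i + 1) := by ring
      rw [e]
      exact this) hst hgo
    refine ⟨q', e1', e2', ?_, hk⟩
    have e : n + (κ :: ks).length = n + 1 + ks.length := by
      rw [List.length_cons]; ring
    rw [e]
    exact hq

/-- the initial list -/
def q0 : List (ℕ × ℕ) := List.replicate 56 (0, 0)

/-- the initial state -/
theorem encS_zero {p Tl Th : ℕ} {T : ℝ} (hp : 0 < p) (hTl : 0 < Tl) (h1 : (Tl : ℝ) ≤ p * T)
    (h2 : p * T ≤ Th) (e1 e2 : ℕ) (he1 : e1 = 56 * p - (56 * p * p / Tl + 1))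
    (he1' : 56 * p * p / Tl + 1 ≤ 56 * p)
    (he2 : e2 = 56 * p - 56 * p * p / Th) : EncS p T 0 q0 e1 e2 := by
  have hp' : (0 : ℝ) < p := by exact_mod_cast hp
  have hTl' : (0 : ℝ) < Tl := by exact_mod_cast hTl
  have hT : 0 < T := by
    by_contra hc
    push Not at hc
    have : (p : ℝ) * T ≤ 0 := mul_nonpos_of_nonneg_of_nonpos hp'.le hc
    linarith
  refine ⟨by simp [q0], ?_, ?_⟩
  · intro j hj
    have e : (gr T 0).Q j = 0 := rfl
    rw [e]
    have : q0.getD j (0, 0) = (0, 0) := by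
      simp only [q0, List.getD_eq_getElem?_getD, List.getElem?_replicate]
      split_ifs
      all_goals rfl
    rw [this]
    simp [Enc]
  · have e : (gr T 0).E = 56 - 56 / T := rfl
    have e' : (p : ℝ) * (gr T 0).E = 56 * p - 56 * p / T := by rw [e]; ring
    constructor
    · change (e1 : ℝ) ≤ _
      rw [e', he1, Nat.cast_sub he1']
      have h8 : 56 * (p : ℝ) / T ≤ ((56 * p * p / Tl + 1 : ℕ) : ℝ) := by
        rw [div_le_iff₀ hT]
        have h9 : 56 * p * p < (56 * p * p / Tl + 1) * Tl := by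
          have := Nat.lt_div_mul_add (a := 56 * p * p) (b := Tl) hTl
          linarith
        have h10 : (56 * (p : ℝ)) * p < ((56 * p * p / Tl + 1 : ℕ) : ℝ) * Tl := by
          exact_mod_cast h9
        have h14 : ((56 * p * p / Tl + 1 : ℕ) : ℝ) * Tl
            ≤ ((56 * p * p / Tl + 1 : ℕ) : ℝ) * (p * T) :=
          mul_le_mul_of_nonneg_left h1 (Nat.cast_nonneg _)
        have h15 : (56 * (p : ℝ)) * p ≤ (((56 * p * p / Tl + 1 : ℕ) : ℝ) * T) * p := by
          calc (56 * (p : ℝ)) * p ≤ ((56 * p * p / Tl + 1 : ℕ) : ℝ) * Tl := h10.le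
            _ ≤ _ := h14
            _ = _ := by ring
        exact le_of_mul_le_mul_right h15 hp'
      push_cast at h8 ⊢
      linarith
    · change _ ≤ (e2 : ℝ)
      rw [e', he2]
      have h7 : (56 * (p : ℝ)) - ((56 * p * p / Th : ℕ) : ℝ)
          ≤ ((56 * p - 56 * p * p / Th : ℕ) : ℝ) := by
        rw [sub_le_iff_le_add]
        have : 56 * p ≤ (56 * p - 56 * p * p / Th) + 56 * p * p / Th := by omega
        exact_mod_cast this
      have h8 : ((56 * p * p / Th : ℕ) : ℝ) ≤ 56 * (p : ℝ) / T := by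
        rw [le_div_iff₀ hT]
        have h9 : (56 * p * p / Th) * Th ≤ 56 * p * p := Nat.div_mul_le_self _ _
        have h10 : ((56 * p * p / Th : ℕ) : ℝ) * Th ≤ (56 * (p : ℝ)) * p := by
          exact_mod_cast h9
        have h14 : ((56 * p * p / Th : ℕ) : ℝ) * (p * T) ≤ ((56 * p * p / Th : ℕ) : ℝ) * Th :=
          mul_le_mul_of_nonneg_left h2 (Nat.cast_nonneg _)
        have h15 : (((56 * p * p / Th : ℕ) : ℝ) * T) * p ≤ (56 * (p : ℝ)) * p := by
          calc (((56 * p * p / Th : ℕ) : ℝ) * T) * p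
              = ((56 * p * p / Th : ℕ) : ℝ) * (p * T) := by ring
            _ ≤ _ := h14
            _ ≤ _ := h10
        exact le_of_mul_le_mul_right h15 hp'
      linarith

/-- STATE: if the run with the thresholds `kap0list` from the initial state ends with `k = true`,
then the state 171 is enclosed by a triple with `k = true`. -/
theorem state171 (hs : SortStmt) (hb : BarStmt) (ha : SimAStmt) {p Tl Th : ℕ} {T : ℝ}
    (hT1 : Tlo ≤ T) (hT2 : T ≤ Thi) (hp : 0 < p) (hTl : 0 < Tl) (h1 : (Tl : ℝ) ≤ p * T)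
    (h2 : p * T ≤ Th) (k : List (ℕ × ℕ) → ℕ → ℕ → Bool)
    (hE : 56 * p * p / Tl + 1 ≤ 56 * p)
    (hgo : go p Tl Th k kap0list q0 (56 * p - (56 * p * p / Tl + 1)) (56 * p - 56 * p * p / Th)
      = true) :
    ∃ q' e1' e2', EncS p T 171 q' e1' e2' ∧ k q' e1' e2' = true := by
  obtain ⟨hval, hk0, -⟩ := ha T hT1 hT2
  have hlen : kap0list.length = 171 := by decide +kernel
  have h0 : EncS p T 0 q0 (56 * p - (56 * p * p / Tl + 1)) (56 * p - 56 * p * p / Th) :=
    encS_zero hp hTl h1 h2 _ _ rfl hE rfl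
  have hst : ∀ i, i < kap0list.length → kap0list.getD i 0 < 56 →
      StepForm T (0 + i) (kap0list.getD i 0) := by
    intro i hi h56
    rw [hlen] at hi
    rw [Nat.zero_add]
    exact stepForm hs hb (hval i (by omega)) (hk0 i hi) h56
  obtain ⟨q', e1', e2', hq, hk⟩ := go_sound hp hTl h1 h2 k kap0list 0 q0 _ _ hst h0 hgo
  rw [hlen, Nat.zero_add] at hq
  exact ⟨q', e1', e2', hq, hk⟩

end SA.H41
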